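import Pool.Agent.K4H14.GC.Final

/-!
# Good and Churchhouse: the statement holds almost surely for the random model of the Moebius function

`F s` is the multiplicative function which is supported on the squarefree numbers and takes the value `s p` at every
prime `p`; so `F (-1)` is the Moebius function. If the values at the primes are independent and `±1` with
probability `1 / 2` each (Wintner's model), then almost surely the statement of Q1 holds for the resulting
function: for every `ε` and every `H(X)`, and uniformly in `X^ε ≤ H ≤ X^(1-ε)`.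
-/

set_option autoImplicit false

namespace Pool.Agent.Results.MP_4f18df_nt.AlmostSurely

open MeasureTheory ProbabilityTheory Filter

/-- The values `e p`, `p` prime, are independent and equal to `1` or to `-1`, each with probability `1 / 2`. -/
structure RandomSigns {Ω : Type} [MeasurableSpace Ω] (P : Measure Ω) (e : ℕ → Ω → ℝ) : Prop where
  meas : ∀ p : ℕ, p.Prime → Measurable (e p)
  indep : iIndepFun (fun p : Nat.Primes => e (p : ℕ)) P
  val : ∀ p : ℕ, p.Prime → ∀ ω, e p ω = 1 ∨ e p ω = -1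
  half : ∀ p : ℕ, p.Prime → P {ω | e p ω = 1} = 1 / 2

/-- The multiplicative function supported on the squarefree numbers with the values `s p` at the primes. -/
noncomputable def F (s : ℕ → ℝ) (n : ℕ) : ℝ :=
  open Classical in if Squarefree n then ∏ p ∈ n.primeFactors, s p else 0

/-- The set of all `x` in `[X, 2X]` such that the sum of `f n` over `|n - x| < H / 2`, divided by
`√(H / ζ(2))`, is at most `t`. -/
def V (f : ℕ → ℝ) (X H t : ℝ) : Set ℝ :=
  {x : ℝ | x ∈ Set.Icc X (2 * X) ∧
    (∑ n ∈ (Finset.range (⌊x + H⌋₊ + 1)).filter (fun n : ℕ => |(n : ℝ) - x| < H / 2), f n)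
      / Real.sqrt (H / (Real.pi ^ 2 / 6)) ≤ t}

/-- The statement of Q1 (that is, of `S16911`) for the function `f` in the place of the Moebius function. -/
def GoodChurchhouse (f : ℕ → ℝ) : Prop :=
  ∀ ε : ℝ, 0 < ε → ε < 1 / 2 → ∀ H : ℝ → ℝ, (∀ᶠ X in atTop, X ^ ε < H X ∧ H X < X ^ (1 - ε)) → ∀ t : ℝ,
    Tendsto (fun X : ℝ => (volume (V f X (H X) t)).toReal / X) atTop (nhds (cdf (gaussianReal 0 1) t))

/-- The same with uniformity in `H` and in `t`. -/
def Uniformly (f : ℕ → ℝ) : Prop :=
  ∀ ε δ : ℝ, 0 < ε → 0 < δ → ∃ X₀ : ℝ, 1 ≤ X₀ ∧ ∀ X : ℝ, X₀ ≤ X → ∀ H : ℝ, X ^ ε ≤ H → H ≤ X ^ (1 - ε) → ∀ t : ℝ,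
    |(volume (V f X H t)).toReal / X - cdf (gaussianReal 0 1) t| ≤ δ

theorem F_eq {Ω : Type} (e : ℕ → Ω → ℝ) (ω : Ω) : F (fun p => e p ω) = K4H14.GC.rmf e ω := rfl

theorem both {f : ℕ → ℝ} (hf : ∀ n, |f n| ≤ 1) (hD : K4H14.GC.Disc f) : Uniformly f ∧ GoodChurchhouse f := by
  constructor
  · intro ε δ hε hδ
    obtain ⟨X₀, h1, h2⟩ := K4H14.GC.real_unif f hf hD ε δ hε hδ
    refine ⟨X₀, h1, fun X hX H hH1 hH2 t => ?_⟩
    rw [cdf_eq_real]
    exact h2 X hX H hH1 hH2 t
  · exact K4H14.GC.real_of_disc f hf hD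

/-- a cylinder has positive probability -/
theorem pos_cyl {Ω : Type} [MeasurableSpace Ω] {P : Measure Ω} [IsProbabilityMeasure P] {e : ℕ → Ω → ℝ} (hS : RandomSigns P e)
    (s : ℕ → ℝ) (hs : ∀ p, s p = 1 ∨ s p = -1) (S : Finset Nat.Primes) : 0 < P (⋂ p ∈ S, e (p : ℕ) ⁻¹' {s p}) := by
  rw [iIndepFun_iff_measure_inter_preimage_eq_mul.1 hS.indep S (sets := fun p => {s p}) (fun p _ => measurableSet_singleton _)]
  rw [CanonicallyOrderedAdd.prod_pos]
  intro p _
  have hp := p.2
  have hm : MeasurableSet {ω | e (p : ℕ) ω = 1} := hS.meas p hp (measurableSet_singleton 1)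
  rcases hs p with h | h
  · have h1 : e (p : ℕ) ⁻¹' {s p} = {ω | e (p : ℕ) ω = 1} := by
      ext ω; simp [h]
    rw [h1, hS.half p hp]
    norm_num
  · have h1 : e (p : ℕ) ⁻¹' {s p} = {ω | e (p : ℕ) ω = 1}ᶜ := by
      ext ω
      simp only [Set.mem_preimage, Set.mem_singleton_iff, h, Set.mem_compl_iff, Set.mem_ofPred_eq]
      rcases hS.val p hp ω with h2 | h2 <;> rw [h2] <;> norm_num
    rw [h1, prob_compl_eq_one_sub hm, hS.half p hp]
    norm_num

/-- The statement of Q1 holds almost surely for a random multiplicative function, for all `ε` and all `H(X)` at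
once and with uniformity; and the values at all primes up to any `y` may be prescribed: in particular there are
such functions which coincide with the Moebius function up to `y`. -/
theorem result :
    (∀ (Ω : Type) [MeasurableSpace Ω] (P : Measure Ω) [IsProbabilityMeasure P] (e : ℕ → Ω → ℝ), RandomSigns P e →
      ∀ᵐ ω ∂P, Uniformly (F fun p => e p ω) ∧ GoodChurchhouse (F fun p => e p ω)) ∧
    (∀ s : ℕ → ℝ, (∀ p, s p = 1 ∨ s p = -1) → ∀ y : ℕ, ∃ s' : ℕ → ℝ, (∀ p, s' p = 1 ∨ s' p = -1) ∧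
      (∀ n ≤ y, F s' n = F s n) ∧ Uniformly (F s') ∧ GoodChurchhouse (F s')) ∧
    (∀ n : ℕ, F (fun _ => -1) n = ((ArithmeticFunction.moebius n : ℤ) : ℝ)) := by
  classical
  have h1 : ∀ (Ω : Type) [MeasurableSpace Ω] (P : Measure Ω) [IsProbabilityMeasure P] (e : ℕ → Ω → ℝ), RandomSigns P e →
      ∀ᵐ ω ∂P, Uniformly (F fun p => e p ω) ∧ GoodChurchhouse (F fun p => e p ω) := by
    intro Ω _ P _ e hS
    have hS' : K4H14.GC.Signs P e := ⟨hS.meas, hS.indep, hS.val, hS.half⟩
    filter_upwards [K4H14.GC.ae_disc hS'] with ω hω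
    rw [F_eq]
    exact both (K4H14.GC.rmf_abs hS' ω) hω
  refine ⟨h1, ?_, ?_⟩
  · intro s hs y
    obtain ⟨P, hP, hS'⟩ := K4H14.GC.exists_signs
    have hS : RandomSigns P (fun n (ω : ℕ → Bool) => if ω n then (1 : ℝ) else -1) := ⟨hS'.meas, hS'.indep, hS'.val, hS'.half⟩
    have h2 := h1 _ P _ hS
    -- the primes up to y
    have hfin : {p : Nat.Primes | (p : ℕ) ≤ y}.Finite := by
      apply Set.Finite.of_finite_image (f := fun p : Nat.Primes => (p : ℕ)) _ (fun a _ b _ h => Subtype.ext h)
      exact (Set.finite_Iic y).subset (by rintro _ ⟨p, hp, rfl⟩; exact hp)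
    have h3 := pos_cyl hS s hs hfin.toFinset
    obtain ⟨ω, hω1, hω2⟩ : ∃ ω, ω ∈ (⋂ p ∈ hfin.toFinset, (fun ω : ℕ → Bool => if ω (p : ℕ) then (1 : ℝ) else -1) ⁻¹' {s p}) ∧
        (Uniformly (F fun p => if ω p then (1 : ℝ) else -1) ∧ GoodChurchhouse (F fun p => if ω p then (1 : ℝ) else -1)) := by
      by_contra hcon
      push Not at hcon
      rw [ae_iff] at h2
      have h4 := measure_mono_null (μ := P) (s := ⋂ p ∈ hfin.toFinset, (fun ω : ℕ → Bool => if ω (p : ℕ) then (1 : ℝ) else -1) ⁻¹' {s p})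
        (t := {ω | ¬ (Uniformly (F fun p => if ω p then (1 : ℝ) else -1) ∧ GoodChurchhouse (F fun p => if ω p then (1 : ℝ) else -1))})
        (fun ω hω => fun hh => hcon ω hω hh.1 hh.2) h2
      exact h3.ne' h4
    refine ⟨fun p => if ω p then (1 : ℝ) else -1, fun p => ?_, fun n hn => ?_, hω2⟩
    · by_cases h : ω p = true
      · left; simp [h]
      · right; simp [h]
    · unfold F
      by_cases hsq : Squarefree n
      · rw [if_pos hsq, if_pos hsq]
        apply Finset.prod_congr rfl
        intro p hp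
        have hpp := Nat.prime_of_mem_primeFactors hp
        have hpy : p ≤ y := (Nat.le_of_dvd (Nat.pos_of_ne_zero hsq.ne_zero) (Nat.dvd_of_mem_primeFactors hp)).trans hn
        have h5 := Set.mem_iInter₂.1 hω1 (⟨p, hpp⟩ : Nat.Primes) (by
          rw [Set.Finite.mem_toFinset]
          exact hpy)
        exact h5
      · rw [if_neg hsq, if_neg hsq]
  · intro n
    unfold F
    by_cases hsq : Squarefree n
    · rw [if_pos hsq, ArithmeticFunction.moebius_apply_of_squarefree hsq, Finset.prod_const]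
      have h6 : n.primeFactors.card = ArithmeticFunction.cardFactors n := by
        rw [← ArithmeticFunction.cardDistinctFactors_eq_cardFactors_iff_squarefree hsq.ne_zero |>.2 hsq]
        rfl
      rw [h6]
      push_cast
      rfl
    · rw [if_neg hsq, ArithmeticFunction.moebius_eq_zero_of_not_squarefree hsq]
      simp

end Pool.Agent.Results.MP_4f18df_nt.AlmostSurely
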