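import Pool.Agent.K4H14.GQ.Final

/-!
# Good and Churchhouse: almost all quadratic twists of the Moebius function

For all primes `q ≤ Q` but at most `C Y^(-c) Q / log Q` of them the sums over `|n - x| < H / 2` of `μ(n) (n / q)`
follow the normal law to within `δ`, for all `X` between `Y` and `Q^η` and all `H` between `X^ε` and `X^(1-ε)`.
The same holds, with the same constants, with any function `g` in the place of `μ` which is `±1` on the squarefree
numbers and `0` elsewhere.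
-/

set_option autoImplicit false

namespace Pool.Agent.Results.MP_4f18df_nt.QuadraticTwists

open MeasureTheory ProbabilityTheory

/-- The set of all `x` in `[X, 2X]` such that the sum of `f n` over `|n - x| < H / 2`, divided by
`√(H / ζ(2))`, is at most `t`. -/
def V (f : ℕ → ℝ) (X H t : ℝ) : Set ℝ :=
  {x : ℝ | x ∈ Set.Icc X (2 * X) ∧
    (∑ n ∈ (Finset.range (⌊x + H⌋₊ + 1)).filter (fun n : ℕ => |(n : ℝ) - x| < H / 2), f n)
      / Real.sqrt (H / (Real.pi ^ 2 / 6)) ≤ t}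

/-- `g(n) (n / q)`, the twist of `g` by the Legendre symbol modulo the prime `q`. -/
noncomputable def twist (g : ℕ → ℝ) (q : ℕ) (n : ℕ) : ℝ := g n * ((jacobiSym (n : ℤ) q : ℤ) : ℝ)

/-- The normal law of Q1 fails for `f` by more than `δ` for some `X` in `[Y, Z]` and some `H` in
`[X^ε, X^(1-ε)]`. -/
def Fails (ε δ Y Z : ℝ) (f : ℕ → ℝ) : Prop :=
  ∃ X : ℝ, Y ≤ X ∧ X ≤ Z ∧ ∃ H : ℝ, X ^ ε ≤ H ∧ H ≤ X ^ (1 - ε) ∧ ∃ t : ℝ,
    δ < |(volume (V f X H t)).toReal / X - cdf (gaussianReal 0 1) t|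

/-- Q1 for almost all quadratic twists: for all `ε, δ > 0` there are `η, c > 0` and `C` such that for every `g`
with `g(n) = ±1` for squarefree `n` and `g(n) = 0` otherwise (in particular for `μ`), for all `Q ≥ 2` and
`Y ≥ 1`, the normal law holds to within `δ` for the twist of `g` by the Legendre symbol modulo `q`, for all
`X ∈ [Y, Q^η]` and all `H ∈ [X^ε, X^(1-ε)]`, for all primes `q ≤ Q` but at most `C Y^(-c) Q / log Q`. -/
theorem result (ε δ : ℝ) (hε : 0 < ε) (hδ : 0 < δ) :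
    ∃ η c C : ℝ, 0 < η ∧ 0 < c ∧ 0 < C ∧
      (∀ g : ℕ → ℝ, (∀ n, Squarefree n → g n = 1 ∨ g n = -1) → (∀ n, ¬ Squarefree n → g n = 0) →
        ∀ Q : ℕ, 2 ≤ Q → ∀ Y : ℝ, 1 ≤ Y →
          ({q : ℕ | q ≤ Q ∧ q.Prime ∧ Fails ε δ Y ((Q : ℝ) ^ η) (twist g q)}.ncard : ℝ) ≤
            C * Y ^ (-c) * (Q / Real.log Q)) ∧
      (∀ Q : ℕ, 2 ≤ Q → ∀ Y : ℝ, 1 ≤ Y →
          ({q : ℕ | q ≤ Q ∧ q.Prime ∧
            Fails ε δ Y ((Q : ℝ) ^ η) (twist (fun n => ((ArithmeticFunction.moebius n : ℤ) : ℝ)) q)}.ncard : ℝ) ≤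
            C * Y ^ (-c) * (Q / Real.log Q)) := by
  classical
  obtain ⟨η, c, C, hη, hc, hC, h1⟩ := K4H14.GQ.twists ε δ hε hδ
  have h2 : ∀ g : ℕ → ℝ, (∀ n, Squarefree n → g n = 1 ∨ g n = -1) → (∀ n, ¬ Squarefree n → g n = 0) →
        ∀ Q : ℕ, 2 ≤ Q → ∀ Y : ℝ, 1 ≤ Y →
          ({q : ℕ | q ≤ Q ∧ q.Prime ∧ Fails ε δ Y ((Q : ℝ) ^ η) (twist g q)}.ncard : ℝ) ≤
            C * Y ^ (-c) * (Q / Real.log Q) := by
    intro g hg1 hg2 Q hQ Y hY
    have hg : K4H14.GQ.SF g := by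
      intro n
      refine ⟨fun h => ?_, hg2 n⟩
      rcases hg1 n h with h | h <;> rw [h] <;> norm_num
    have h3 := h1 g hg Q hQ Y hY
    have h4 : {q : ℕ | q ≤ Q ∧ q.Prime ∧ Fails ε δ Y ((Q : ℝ) ^ η) (twist g q)} =
        (K4H14.GQ.PL Q (fun q => K4H14.GQ.Exc ε δ Y ((Q : ℝ) ^ η) (K4H14.GQ.tw g q)) : Finset ℕ) := by
      ext q
      rw [Finset.mem_coe]
      unfold K4H14.GQ.PL
      rw [K4H14.GQ.mem_PQ]
      constructor
      · rintro ⟨a1, a2, X, a3, a4, H, a5, a6, t, a7⟩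
        rw [cdf_eq_real] at a7
        exact ⟨⟨a2.pos, a1⟩, a2, X, a3, a4, H, a5, a6, t, a7⟩
      · rintro ⟨⟨_, a1⟩, a2, X, a3, a4, H, a5, a6, t, a7⟩
        refine ⟨a1, a2, X, a3, a4, H, a5, a6, t, ?_⟩
        rw [cdf_eq_real]
        exact a7
    rw [h4, Set.ncard_coe_finset]
    exact h3
  refine ⟨η, c, C, hη, hc, hC, h2, ?_⟩
  apply h2
  · intro n hn
    have h5 := ArithmeticFunction.moebius_ne_zero_iff_squarefree.2 hn
    rcases ArithmeticFunction.moebius_eq_or n with h | h | h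
    · exact absurd h h5
    · left; rw [h]; norm_num
    · right; rw [h]; norm_num
  · intro n hn
    rw [ArithmeticFunction.moebius_eq_zero_of_not_squarefree hn]
    norm_num

end Pool.Agent.Results.MP_4f18df_nt.QuadraticTwists
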