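import Pool.Agent.K4H49.GT.Inst

/-!
# Good and Churchhouse: the complex normal law for almost all character twists of the Moebius function

Let `g` be any function which is unimodular on the squarefree numbers and `0` elsewhere, for instance `μ`.
For all Dirichlet characters `χ` modulo a prime `q` but at most `C Y^(-c) q` of them, the sums of `g(n) χ(n)`
over `|n - x| < H / 2`, divided by `√(H / ζ(2))`, follow the standard complex normal law to within `δ`, uniformly
over all half planes, for all `X` between `Y` and `q^η` and all `H` between `X^ε` and `X^(1-ε)`.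
-/

set_option autoImplicit false

namespace Pool.Agent.Results.MP_4f18df_nt.TwistsByCharacters

open MeasureTheory ProbabilityTheory

/-- The set of all `x` in `[X, 2X]` such that the component in the direction `u` of `√2` times the sum of `f n`
over `|n - x| < H / 2`, divided by `√(H / ζ(2))`, is at most `s`. -/
def V (f : ℕ → ℂ) (u : ℂ) (X H s : ℝ) : Set ℝ :=
  {x : ℝ | x ∈ Set.Icc X (2 * X) ∧
    Real.sqrt 2 * (starRingEnd ℂ u *
      ∑ n ∈ (Finset.range (⌊x + H⌋₊ + 1)).filter (fun n : ℕ => |(n : ℝ) - x| < H / 2), f n).re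
      / Real.sqrt (H / (Real.pi ^ 2 / 6)) ≤ s}

/-- The complex normal law fails for `f` by more than `δ` for some `X` in `[Y, Z]`, some `H` in
`[X^ε, X^(1-ε)]` and some half plane (`u` is a direction, `s` a level). -/
def Fails (ε δ Y Z : ℝ) (f : ℕ → ℂ) : Prop :=
  ∃ X : ℝ, Y ≤ X ∧ X ≤ Z ∧ ∃ H : ℝ, X ^ ε ≤ H ∧ H ≤ X ^ (1 - ε) ∧ ∃ u : ℂ, ‖u‖ = 1 ∧ ∃ s : ℝ,
    δ < |(volume (V f u X H s)).toReal / X - cdf (gaussianReal 0 1) s|

/-- The law holds for almost all twists of `g` by the characters modulo primes. -/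
def AlmostAll (ε δ η c C : ℝ) (g : ℕ → ℂ) : Prop :=
  ∀ q : ℕ, q.Prime → ∀ Y : ℝ, 1 ≤ Y →
    (({χ : DirichletCharacter ℂ q | Fails ε δ Y ((q : ℝ) ^ η) (fun n => g n * χ (n : ZMod q))}.ncard : ℕ) : ℝ) ≤
      C * Y ^ (-c) * q

theorem V_eq (f : ℕ → ℂ) (u : ℂ) (X H s : ℝ) : V f u X H s = K4H14.GC.VV (K4H49.GT.Fu u f) X H s := by
  unfold V K4H14.GC.VV K4H14.GC.MM K4H49.GT.Fu
  simp only [← Finset.mul_sum, ← Complex.re_sum]

theorem Fails_iff (ε δ Y Z : ℝ) (f : ℕ → ℂ) : Fails ε δ Y Z f ↔ K4H49.GT.ExcC ε δ Y Z f := by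
  unfold Fails K4H49.GT.ExcC
  simp only [V_eq, cdf_eq_real]
  rfl

/-- Q1 for almost all character twists: for all `ε, δ > 0` there are `η, c > 0` and `C` such that for every `g`
which is unimodular on the squarefree numbers and `0` elsewhere, in particular for `μ`: for all primes `q` and
`Y ≥ 1`, the standard complex normal law holds to within `δ` for the twist of `g` by `χ`, for all `X ∈ [Y, q^η]`,
all `H ∈ [X^ε, X^(1-ε)]` and all half planes, for all characters `χ` modulo `q` but at most `C Y^(-c) q` of them. -/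
theorem result (ε δ : ℝ) (hε : 0 < ε) (hδ : 0 < δ) :
    ∃ η c C : ℝ, 0 < η ∧ 0 < c ∧ 0 < C ∧
      (∀ g : ℕ → ℂ, (∀ n, Squarefree n → ‖g n‖ = 1) → (∀ n, ¬ Squarefree n → g n = 0) →
        AlmostAll ε δ η c C g) ∧
      AlmostAll ε δ η c C (fun n => ((ArithmeticFunction.moebius n : ℤ) : ℂ)) := by
  classical
  obtain ⟨η, c, C, hη, hc, hC, h1⟩ := K4H49.GT.twists_c ε δ hε hδ
  have h2 : ∀ g : ℕ → ℂ, (∀ n, Squarefree n → ‖g n‖ = 1) → (∀ n, ¬ Squarefree n → g n = 0) →
        AlmostAll ε δ η c C g := by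
    intro g hg1 hg2
    have hg : K4H49.GT.SFC g := fun n => ⟨hg1 n, hg2 n⟩
    intro q hq Y hY
    have : Fact q.Prime := ⟨hq⟩
    have h3 := (h1 g hg).2 q Y hY
    have h4 : {χ : DirichletCharacter ℂ q | Fails ε δ Y ((q : ℝ) ^ η) (fun n => g n * χ (n : ZMod q))} =
        {χ : DirichletCharacter ℂ q | K4H49.GT.ExcC ε δ Y ((q : ℝ) ^ η) (fun n => g n * K4H49.GT.xc q χ n)} := by
      ext χ
      exact Fails_iff _ _ _ _ _
    rw [h4]
    exact h3
  refine ⟨η, c, C, hη, hc, hC, h2, ?_⟩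
  apply h2
  · intro n hn
    have h5 := ArithmeticFunction.moebius_ne_zero_iff_squarefree.2 hn
    rcases ArithmeticFunction.moebius_eq_or n with h | h | h
    · exact absurd h h5
    · rw [h]; norm_num
    · rw [h]; norm_num
  · intro n hn
    rw [ArithmeticFunction.moebius_eq_zero_of_not_squarefree hn]
    norm_num

end Pool.Agent.Results.MP_4f18df_nt.TwistsByCharacters
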